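import Pool.Agent.H19.HopfCalc

/-!
# Estimates for the second example
-/

namespace Pool.Agent.H19.HopfCalc

lemma e_pos_eq {x : ℝ} (hx : 0 < x) : e x = Real.exp (-x⁻¹) := by
  simp [e, expNegInvGlue, not_le.2 hx]

lemma e_nonneg (x : ℝ) : 0 ≤ e x := expNegInvGlue.nonneg x

lemma e_zero {x : ℝ} (hx : x ≤ 0) : e x = 0 := expNegInvGlue.zero_of_nonpos hx

lemma e1_zero {x : ℝ} (hx : x ≤ 0) : e1 x = 0 := by
  simp [e1, expNegInvGlue.zero_of_nonpos hx]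

lemma e2_zero {x : ℝ} (hx : x ≤ 0) : e2 x = 0 := by
  simp [e2, expNegInvGlue.zero_of_nonpos hx]

lemma e_mono {x y : ℝ} (h : x ≤ y) : e x ≤ e y := expNegInvGlue.monotone h

lemma e_le_one (x : ℝ) : e x ≤ 1 := by
  rcases le_or_gt x 0 with h | h
  · rw [e_zero h]; norm_num
  · rw [e_pos_eq h]
    apply Real.exp_le_one_iff.2
    have : 0 < x⁻¹ := inv_pos.2 h
    linarith

lemma inv_pow_mul_e {x : ℝ} (hx : 0 < x) (n : ℕ) : x⁻¹ ^ n * e x ≤ n.factorial := by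
  have h1 := Real.pow_div_factorial_le_exp x⁻¹ (inv_pos.2 hx).le n
  have hf : (0 : ℝ) < n.factorial := by positivity
  rw [div_le_iff₀ hf] at h1
  rw [e_pos_eq hx]
  have h2 : Real.exp (-x⁻¹) * Real.exp x⁻¹ = 1 := by rw [← Real.exp_add]; simp
  calc x⁻¹ ^ n * Real.exp (-x⁻¹) ≤ (Real.exp x⁻¹ * n.factorial) * Real.exp (-x⁻¹) :=
        mul_le_mul_of_nonneg_right h1 (Real.exp_pos _).le
    _ = n.factorial * (Real.exp (-x⁻¹) * Real.exp x⁻¹) := by ring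
    _ = n.factorial := by rw [h2, mul_one]

lemma e1_nonneg (x : ℝ) : 0 ≤ e1 x := mul_nonneg (by positivity) (e_nonneg x)

lemma e1_le (x : ℝ) : e1 x ≤ 2 := by
  rcases le_or_gt x 0 with h | h
  · rw [e1_zero h]; norm_num
  · have := inv_pow_mul_e h 2
    norm_num [Nat.factorial] at this
    have e' : e1 x = (x ^ 2)⁻¹ * e x := by simp only [e1, e, inv_pow]
    rw [e']
    exact this

lemma e2_abs (x : ℝ) : |e2 x| ≤ 36 := by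
  rcases le_or_gt x 0 with h | h
  · rw [e2_zero h]; norm_num
  · have h3 := inv_pow_mul_e h 3
    have h4 := inv_pow_mul_e h 4
    have hi : 0 < x⁻¹ := inv_pos.2 h
    have p3 : 0 ≤ x⁻¹ ^ 3 * e x := mul_nonneg (by positivity) (e_nonneg x)
    have p4 : 0 ≤ x⁻¹ ^ 4 * e x := mul_nonneg (by positivity) (e_nonneg x)
    norm_num [Nat.factorial] at h3 h4
    have e' : e2 x = x⁻¹ ^ 4 * e x - 2 * (x⁻¹ ^ 3 * e x) := by simp only [e2, e]; ring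
    rw [e', abs_le]
    norm_num at p3 p4 ⊢
    constructor <;> linarith

lemma e1_small {x : ℝ} (h : 0 ≤ x) : e1 x ≤ 6 * x := by
  rcases h.eq_or_lt with h | h
  · rw [← h, e1_zero le_rfl]; norm_num
  · have h3 := inv_pow_mul_e h 3
    norm_num [Nat.factorial] at h3
    have e' : e1 x = x * (x⁻¹ ^ 3 * e x) := by
      simp only [e1, e]; field_simp
    rw [e']
    have := mul_le_mul_of_nonneg_left h3 h.le
    norm_num at this ⊢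
    linarith

lemma e2_small {x : ℝ} (h : 0 ≤ x) : |e2 x| ≤ 168 * x := by
  rcases h.eq_or_lt with h | h
  · rw [← h, e2_zero le_rfl]; norm_num
  · have h4 := inv_pow_mul_e h 4
    have h5 := inv_pow_mul_e h 5
    norm_num [Nat.factorial] at h4 h5
    have hi : 0 < x⁻¹ := inv_pos.2 h
    have p4 : 0 ≤ x⁻¹ ^ 4 * e x := mul_nonneg (by positivity) (e_nonneg x)
    have p5 : 0 ≤ x⁻¹ ^ 5 * e x := mul_nonneg (by positivity) (e_nonneg x)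
    have e' : e2 x = x * (x⁻¹ ^ 5 * e x) - 2 * (x * (x⁻¹ ^ 4 * e x)) := by
      simp only [e2, e]; field_simp
    have a4 := mul_le_mul_of_nonneg_left h4 h.le
    have a5 := mul_le_mul_of_nonneg_left h5 h.le
    have q4 := mul_nonneg h.le p4
    have q5 := mul_nonneg h.le p5
    rw [e', abs_le]
    norm_num at a4 a5 q4 q5 ⊢
    constructor <;> linarith

/-- the basic small number -/
lemma c_half {Y : ℝ} (h1 : Y < 1) : e Y ≤ 1 / 2 := by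
  have h : e Y ≤ e 1 := e_mono h1.le
  have h2 : e 1 = Real.exp (-1) := by rw [e_pos_eq one_pos]; norm_num
  have h3 : (2 : ℝ) ≤ Real.exp 1 := by
    have := Real.add_one_le_exp (1 : ℝ)
    linarith
  have h4 : Real.exp (-1) * Real.exp 1 = 1 := by rw [← Real.exp_add]; simp
  have h5 : Real.exp (-1) ≤ 1 / 2 := by
    have := Real.exp_pos (-1 : ℝ)
    nlinarith
  linarith

lemma e_half_eq {Y : ℝ} (h0 : 0 < Y) : e (Y / 2) = e Y ^ 2 := by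
  rw [e_pos_eq h0, e_pos_eq (by positivity), ← Real.exp_nat_mul]
  congr 1
  push_cast
  field_simp

/-- lower bound for `e (Y - t²)` -/
lemma e_lower {Y t : ℝ} (h0 : 0 < Y) (ht : t ^ 2 ≤ Y / 2) :
    e Y * (1 - 2 * t ^ 2 * (Y⁻¹) ^ 2) ≤ e (Y - t ^ 2) := by
  have hD : 0 < Y - t ^ 2 := by linarith
  rw [e_pos_eq h0, e_pos_eq hD]
  have h1 : (Y - t ^ 2)⁻¹ ≤ Y⁻¹ + 2 * t ^ 2 * (Y⁻¹) ^ 2 := by
    rw [inv_eq_one_div, div_le_iff₀ hD]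
    have e0 : (Y⁻¹ + 2 * t ^ 2 * Y⁻¹ ^ 2) * (Y - t ^ 2) =
        1 + t ^ 2 * Y⁻¹ ^ 2 * (Y - 2 * t ^ 2) := by
      field_simp
      ring
    rw [e0]
    have : 0 ≤ t ^ 2 * Y⁻¹ ^ 2 * (Y - 2 * t ^ 2) :=
      mul_nonneg (by positivity) (by linarith)
    linarith
  have h2 : 1 - 2 * t ^ 2 * Y⁻¹ ^ 2 ≤ Real.exp (-(2 * t ^ 2 * Y⁻¹ ^ 2)) := by
    have := Real.add_one_le_exp (-(2 * t ^ 2 * Y⁻¹ ^ 2))
    linarith
  calc Real.exp (-Y⁻¹) * (1 - 2 * t ^ 2 * Y⁻¹ ^ 2)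
      ≤ Real.exp (-Y⁻¹) * Real.exp (-(2 * t ^ 2 * Y⁻¹ ^ 2)) :=
        mul_le_mul_of_nonneg_left h2 (Real.exp_pos _).le
    _ = Real.exp (-(Y⁻¹ + 2 * t ^ 2 * Y⁻¹ ^ 2)) := by rw [← Real.exp_add]; congr 1; ring
    _ ≤ Real.exp (-(Y - t ^ 2)⁻¹) := Real.exp_le_exp.2 (by linarith)

lemma e_lower' {Y t : ℝ} (h0 : 0 < Y) (ht : t ^ 2 ≤ Y / 2) :
    e Y - 4 * t ^ 2 ≤ e (Y - t ^ 2) := by
  have h1 := e_lower h0 ht
  have h2 := inv_pow_mul_e h0 2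
  norm_num [Nat.factorial] at h2
  have h3 : t ^ 2 * ((Y ^ 2)⁻¹ * e Y) ≤ t ^ 2 * 2 := mul_le_mul_of_nonneg_left h2 (by positivity)
  have h4 : e Y * (1 - 2 * t ^ 2 * (Y⁻¹) ^ 2) = e Y - 2 * (t ^ 2 * ((Y ^ 2)⁻¹ * e Y)) := by
    rw [inv_pow]; ring
  rw [h4] at h1
  linarith

lemma e1_lower {Y t : ℝ} (h0 : 0 < Y) (ht : t ^ 2 ≤ Y / 2) :
    Y⁻¹ ^ 2 * e Y - 48 * t ^ 2 ≤ e1 (Y - t ^ 2) := by
  have hD : 0 < Y - t ^ 2 := by linarith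
  have h1 := e_lower h0 ht
  have h2 := inv_pow_mul_e h0 4
  norm_num [Nat.factorial] at h2
  have h3 : t ^ 2 * ((Y ^ 4)⁻¹ * e Y) ≤ t ^ 2 * 24 := mul_le_mul_of_nonneg_left h2 (by positivity)
  have h5 : Y⁻¹ ^ 2 * (e Y * (1 - 2 * t ^ 2 * (Y⁻¹) ^ 2)) =
      Y⁻¹ ^ 2 * e Y - 2 * (t ^ 2 * ((Y ^ 4)⁻¹ * e Y)) := by
    field_simp
  have h6 : Y⁻¹ ≤ (Y - t ^ 2)⁻¹ := by
    apply inv_anti₀ hD
    have : 0 ≤ t ^ 2 := by positivity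
    linarith
  have h7 : Y⁻¹ ^ 2 ≤ (Y - t ^ 2)⁻¹ ^ 2 := by
    have : 0 < Y⁻¹ := inv_pos.2 h0
    gcongr
  have h8 : Y⁻¹ ^ 2 * (e Y * (1 - 2 * t ^ 2 * (Y⁻¹) ^ 2)) ≤ e1 (Y - t ^ 2) := by
    calc Y⁻¹ ^ 2 * (e Y * (1 - 2 * t ^ 2 * (Y⁻¹) ^ 2)) ≤ Y⁻¹ ^ 2 * e (Y - t ^ 2) :=
          mul_le_mul_of_nonneg_left h1 (by positivity)
      _ ≤ (Y - t ^ 2)⁻¹ ^ 2 * e (Y - t ^ 2) :=
          mul_le_mul_of_nonneg_right h7 (e_nonneg _)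
      _ = e1 (Y - t ^ 2) := rfl
  rw [h5] at h8
  linarith

end Pool.Agent.H19.HopfCalc
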