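import Mathlib

/-!
# First and second derivatives of the function of two variables used in the second example

The function is
`y² + σ t e(y² - t²) + e(y²)^50 e(t² - y²) + 200 τ e(2 t)` with `e(x) = exp (-1/x)` for `x > 0`.
-/

open scoped ContDiff Topology

namespace Pool.Agent.H19.HopfCalc

/-- The plane, with points `(t, y)`. -/
abbrev E2 : Type := ℝ × EuclideanSpace ℝ (Fin 1)

/-- `e(x) = exp (-1/x)` for `x > 0` and `0` otherwise. -/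
noncomputable abbrev e (x : ℝ) : ℝ := expNegInvGlue x

/-- the derivative of `e` -/
noncomputable def e1 (x : ℝ) : ℝ := x⁻¹ ^ 2 * expNegInvGlue x

/-- the second derivative of `e` -/
noncomputable def e2 (x : ℝ) : ℝ := (x⁻¹ ^ 4 - 2 * x⁻¹ ^ 3) * expNegInvGlue x

lemma hasDerivAt_e (x : ℝ) : HasDerivAt e (e1 x) x := by
  have h := expNegInvGlue.hasDerivAt_polynomial_eval_inv_mul (1 : Polynomial ℝ) x
  simpa [e1] using h

lemma hasDerivAt_e1 (x : ℝ) : HasDerivAt e1 (e2 x) x := by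
  have h := expNegInvGlue.hasDerivAt_polynomial_eval_inv_mul (Polynomial.X ^ 2 : Polynomial ℝ) x
  have h2 : (fun x : ℝ => Polynomial.eval x⁻¹ (Polynomial.X ^ 2 : Polynomial ℝ) *
      expNegInvGlue x) = e1 := by
    funext z; simp [e1]
  rw [h2] at h
  have h3 : Polynomial.eval x⁻¹ (Polynomial.X ^ 2 * (Polynomial.X ^ 2 -
      Polynomial.derivative (Polynomial.X ^ 2)) : Polynomial ℝ) * expNegInvGlue x = e2 x := by
    unfold e2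
    congr 1
    simp
    ring
  rw [h3] at h
  exact h

/-- the `t`-coordinate as a linear form -/
noncomputable def dT : E2 →L[ℝ] ℝ := ContinuousLinearMap.fst ℝ ℝ _

/-- the `y`-coordinate as a linear form -/
noncomputable def dY : E2 →L[ℝ] ℝ :=
  (EuclideanSpace.proj (0 : Fin 1) : EuclideanSpace ℝ (Fin 1) →L[ℝ] ℝ).comp
    (ContinuousLinearMap.snd ℝ ℝ _)

/-- `f` has the partial derivatives `a`, `b` at `p` -/
def HG (f : E2 → ℝ) (a b : ℝ) (p : E2) : Prop := HasFDerivAt f (a • dT + b • dY) p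

lemma HG.congr {f : E2 → ℝ} {a b a' b' : ℝ} {p : E2} (h : HG f a b p) (ha : a = a')
    (hb : b = b') : HG f a' b' p := by subst ha; subst hb; exact h

lemma HG.const (c : ℝ) (p : E2) : HG (fun _ => c) 0 0 p := by
  unfold HG
  simpa using hasFDerivAt_const c p

lemma HG.t (p : E2) : HG (fun q => q.1) 1 0 p := by
  unfold HG
  have : HasFDerivAt (fun q : E2 => q.1) dT p := hasFDerivAt_fst
  simpa using this

lemma HG.y (p : E2) : HG (fun q => q.2 0) 0 1 p := by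
  unfold HG
  have : HasFDerivAt (fun q : E2 => q.2 0) dY p := dY.hasFDerivAt
  simpa using this

lemma HG.add {f g : E2 → ℝ} {a b c d : ℝ} {p : E2} (hf : HG f a b p) (hg : HG g c d p) :
    HG (fun q => f q + g q) (a + c) (b + d) p := by
  unfold HG at *
  refine (HasFDerivAt.fun_add hf hg).congr_fderiv ?_
  apply ContinuousLinearMap.ext
  intro v
  simp
  ring

lemma HG.mul {f g : E2 → ℝ} {a b c d : ℝ} {p : E2} (hf : HG f a b p) (hg : HG g c d p) :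
    HG (fun q => f q * g q) (a * g p + f p * c) (b * g p + f p * d) p := by
  unfold HG at *
  refine (HasFDerivAt.fun_mul hf hg).congr_fderiv ?_
  apply ContinuousLinearMap.ext
  intro v
  simp
  ring

lemma HG.comp {f : E2 → ℝ} {a b : ℝ} {p : E2} {g : ℝ → ℝ} {g' : ℝ} (hf : HG f a b p)
    (hg : HasDerivAt g g' (f p)) : HG (fun q => g (f q)) (g' * a) (g' * b) p := by
  unfold HG at *
  have h := hg.comp_hasFDerivAt p hf
  refine h.congr_fderiv ?_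
  apply ContinuousLinearMap.ext
  intro v
  simp
  ring

lemma HG.fderiv_t {f : E2 → ℝ} {a b : ℝ} {p : E2} (h : HG f a b p) :
    fderiv ℝ f p (1, 0) = a := by
  unfold HG at h
  rw [h.fderiv]
  simp [dT, dY]

lemma HG.fderiv_y {f : E2 → ℝ} {a b : ℝ} {p : E2} (h : HG f a b p) :
    fderiv ℝ f p (0, EuclideanSpace.single 0 1) = b := by
  unfold HG at h
  rw [h.fderiv]
  simp [dT, dY]

/-- The function of the example. -/
noncomputable def F (σ τ : ℝ) (p : E2) : ℝ :=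
  p.2 0 ^ 2 + σ * (p.1 * e (p.2 0 ^ 2 - p.1 ^ 2)) +
    e (p.2 0 ^ 2) ^ 50 * e (p.1 ^ 2 - p.2 0 ^ 2) + τ * (200 * e (2 * p.1))

/-- its `t`-derivative -/
noncomputable def Ft (σ τ : ℝ) (p : E2) : ℝ :=
  σ * (e (p.2 0 ^ 2 - p.1 ^ 2) - 2 * p.1 ^ 2 * e1 (p.2 0 ^ 2 - p.1 ^ 2)) +
    e (p.2 0 ^ 2) ^ 50 * (2 * p.1 * e1 (p.1 ^ 2 - p.2 0 ^ 2)) + τ * (400 * e1 (2 * p.1))

/-- its `y`-derivative -/
noncomputable def Fy (σ : ℝ) (p : E2) : ℝ :=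
  2 * p.2 0 + σ * (2 * p.1 * p.2 0 * e1 (p.2 0 ^ 2 - p.1 ^ 2)) +
    (100 * p.2 0 * e (p.2 0 ^ 2) ^ 49 * e1 (p.2 0 ^ 2)) * e (p.1 ^ 2 - p.2 0 ^ 2) -
    e (p.2 0 ^ 2) ^ 50 * (2 * p.2 0 * e1 (p.1 ^ 2 - p.2 0 ^ 2))

/-- second derivative `tt` -/
noncomputable def Ftt (σ τ : ℝ) (p : E2) : ℝ :=
  σ * (- 6 * p.1 * e1 (p.2 0 ^ 2 - p.1 ^ 2) + 4 * p.1 ^ 3 * e2 (p.2 0 ^ 2 - p.1 ^ 2)) +
    e (p.2 0 ^ 2) ^ 50 * (2 * e1 (p.1 ^ 2 - p.2 0 ^ 2) + 4 * p.1 ^ 2 * e2 (p.1 ^ 2 - p.2 0 ^ 2)) +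
    τ * (800 * e2 (2 * p.1))

/-- second derivative `ty` -/
noncomputable def Fty (σ : ℝ) (p : E2) : ℝ :=
  σ * (2 * p.2 0 * e1 (p.2 0 ^ 2 - p.1 ^ 2) -
      4 * p.1 ^ 2 * p.2 0 * e2 (p.2 0 ^ 2 - p.1 ^ 2)) +
    (100 * p.2 0 * e (p.2 0 ^ 2) ^ 49 * e1 (p.2 0 ^ 2)) * (2 * p.1 * e1 (p.1 ^ 2 - p.2 0 ^ 2)) -
    e (p.2 0 ^ 2) ^ 50 * (4 * p.1 * p.2 0 * e2 (p.1 ^ 2 - p.2 0 ^ 2))

/-- second derivative `yy` -/
noncomputable def Fyy (σ : ℝ) (p : E2) : ℝ :=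
  2 + σ * (p.1 * (2 * e1 (p.2 0 ^ 2 - p.1 ^ 2) + 4 * p.2 0 ^ 2 * e2 (p.2 0 ^ 2 - p.1 ^ 2))) +
    (100 * e (p.2 0 ^ 2) ^ 49 * e1 (p.2 0 ^ 2) +
      9800 * p.2 0 ^ 2 * e (p.2 0 ^ 2) ^ 48 * e1 (p.2 0 ^ 2) ^ 2 +
      200 * p.2 0 ^ 2 * e (p.2 0 ^ 2) ^ 49 * e2 (p.2 0 ^ 2)) * e (p.1 ^ 2 - p.2 0 ^ 2) -
    (100 * p.2 0 * e (p.2 0 ^ 2) ^ 49 * e1 (p.2 0 ^ 2)) *
      (4 * p.2 0 * e1 (p.1 ^ 2 - p.2 0 ^ 2)) -
    e (p.2 0 ^ 2) ^ 50 * (2 * e1 (p.1 ^ 2 - p.2 0 ^ 2) -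
      4 * p.2 0 ^ 2 * e2 (p.1 ^ 2 - p.2 0 ^ 2))

lemma HG.pow {f : E2 → ℝ} {a b : ℝ} {p : E2} (hf : HG f a b p) (n : ℕ) :
    HG (fun q => f q ^ n) (n * f p ^ (n - 1) * a) (n * f p ^ (n - 1) * b) p :=
  hf.comp (hasDerivAt_pow n (f p))

lemma HG.neg {f : E2 → ℝ} {a b : ℝ} {p : E2} (hf : HG f a b p) :
    HG (fun q => - f q) (- a) (- b) p := by
  unfold HG at *
  refine (HasFDerivAt.fun_neg hf).congr_fderiv ?_
  apply ContinuousLinearMap.ext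
  intro v
  simp
  ring

lemma HG.sub {f g : E2 → ℝ} {a b c d : ℝ} {p : E2} (hf : HG f a b p) (hg : HG g c d p) :
    HG (fun q => f q - g q) (a - c) (b - d) p := by
  have h := hf.add hg.neg
  simpa [sub_eq_add_neg] using h

lemma hY (p : E2) : HG (fun q => q.2 0 ^ 2) 0 (2 * p.2 0) p :=
  ((HG.y p).pow 2).congr (by simp) (by simp)

lemma hT (p : E2) : HG (fun q => q.1 ^ 2) (2 * p.1) 0 p :=
  ((HG.t p).pow 2).congr (by simp) (by simp)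

lemma hD (p : E2) : HG (fun q => q.2 0 ^ 2 - q.1 ^ 2) (- 2 * p.1) (2 * p.2 0) p :=
  ((hY p).sub (hT p)).congr (by ring) (by ring)

lemma hD' (p : E2) : HG (fun q => q.1 ^ 2 - q.2 0 ^ 2) (2 * p.1) (- 2 * p.2 0) p :=
  ((hT p).sub (hY p)).congr (by ring) (by ring)

lemma h2t (p : E2) : HG (fun q => 2 * q.1) 2 0 p :=
  ((HG.const 2 p).mul (HG.t p)).congr (by ring) (by ring)

lemma heD (p : E2) : HG (fun q => e (q.2 0 ^ 2 - q.1 ^ 2))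
    (- 2 * p.1 * e1 (p.2 0 ^ 2 - p.1 ^ 2)) (2 * p.2 0 * e1 (p.2 0 ^ 2 - p.1 ^ 2)) p :=
  ((hD p).comp (hasDerivAt_e _)).congr (by ring) (by ring)

lemma heD' (p : E2) : HG (fun q => e (q.1 ^ 2 - q.2 0 ^ 2))
    (2 * p.1 * e1 (p.1 ^ 2 - p.2 0 ^ 2)) (- 2 * p.2 0 * e1 (p.1 ^ 2 - p.2 0 ^ 2)) p :=
  ((hD' p).comp (hasDerivAt_e _)).congr (by ring) (by ring)

lemma he1D (p : E2) : HG (fun q => e1 (q.2 0 ^ 2 - q.1 ^ 2))
    (- 2 * p.1 * e2 (p.2 0 ^ 2 - p.1 ^ 2)) (2 * p.2 0 * e2 (p.2 0 ^ 2 - p.1 ^ 2)) p :=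
  ((hD p).comp (hasDerivAt_e1 _)).congr (by ring) (by ring)

lemma he1D' (p : E2) : HG (fun q => e1 (q.1 ^ 2 - q.2 0 ^ 2))
    (2 * p.1 * e2 (p.1 ^ 2 - p.2 0 ^ 2)) (- 2 * p.2 0 * e2 (p.1 ^ 2 - p.2 0 ^ 2)) p :=
  ((hD' p).comp (hasDerivAt_e1 _)).congr (by ring) (by ring)

lemma heY (p : E2) : HG (fun q => e (q.2 0 ^ 2)) 0 (2 * p.2 0 * e1 (p.2 0 ^ 2)) p :=
  ((hY p).comp (hasDerivAt_e _)).congr (by ring) (by ring)

lemma he1Y (p : E2) : HG (fun q => e1 (q.2 0 ^ 2)) 0 (2 * p.2 0 * e2 (p.2 0 ^ 2)) p :=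
  ((hY p).comp (hasDerivAt_e1 _)).congr (by ring) (by ring)

lemma heYpow (p : E2) (n : ℕ) : HG (fun q => e (q.2 0 ^ 2) ^ n) 0
    (n * e (p.2 0 ^ 2) ^ (n - 1) * (2 * p.2 0 * e1 (p.2 0 ^ 2))) p :=
  ((heY p).pow n).congr (by ring) (by ring)

lemma he2t (p : E2) : HG (fun q => e (2 * q.1)) (2 * e1 (2 * p.1)) 0 p :=
  ((h2t p).comp (hasDerivAt_e _)).congr (by ring) (by ring)

lemma he12t (p : E2) : HG (fun q => e1 (2 * q.1)) (2 * e2 (2 * p.1)) 0 p :=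
  ((h2t p).comp (hasDerivAt_e1 _)).congr (by ring) (by ring)

theorem hgF (σ τ : ℝ) (p : E2) : HG (F σ τ) (Ft σ τ p) (Fy σ p) p := by
  have h := (((hY p).add ((HG.const σ p).mul ((HG.t p).mul (heD p)))).add
    ((heYpow p 50).mul (heD' p))).add ((HG.const τ p).mul ((HG.const 200 p).mul (he2t p)))
  refine h.congr ?_ ?_
  · simp only [Ft]; ring
  · simp only [Fy]; ring

theorem hgFt (σ τ : ℝ) (p : E2) : HG (Ft σ τ) (Ftt σ τ p) (Fty σ p) p := by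
  have h := (((HG.const σ p).mul ((heD p).sub (((HG.const 2 p).mul (hT p)).mul (he1D p)))).add
    ((heYpow p 50).mul (((HG.const 2 p).mul (HG.t p)).mul (he1D' p)))).add
    ((HG.const τ p).mul ((HG.const 400 p).mul (he12t p)))
  refine h.congr ?_ ?_
  · simp only [Ftt]; ring
  · simp only [Fty]; ring

theorem hgFy (σ : ℝ) (p : E2) : HG (Fy σ) (Fty σ p) (Fyy σ p) p := by
  have h := ((((HG.const 2 p).mul (HG.y p)).add ((HG.const σ p).mul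
    ((((HG.const 2 p).mul (HG.t p)).mul (HG.y p)).mul (he1D p)))).add
    (((((HG.const 100 p).mul (HG.y p)).mul (heYpow p 49)).mul (he1Y p)).mul (heD' p))).sub
    ((heYpow p 50).mul (((HG.const 2 p).mul (HG.y p)).mul (he1D' p)))
  refine h.congr ?_ ?_
  · simp only [Fty]; ring
  · simp only [Fyy]; ring

lemma contDiff_t : ContDiff ℝ ∞ (fun q : E2 => q.1) := contDiff_fst

lemma contDiff_y : ContDiff ℝ ∞ (fun q : E2 => q.2 0) := dY.contDiff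

/-- all the smooth pieces -/
theorem contDiff_G (σ τ s : ℝ) : ContDiff ℝ ∞ (fun p : E2 =>
    p.2 0 ^ 2 + σ * (p.1 * e (p.2 0 ^ 2 - p.1 ^ 2)) +
    e (p.2 0 ^ 2) ^ 50 * e (p.1 ^ 2 - p.2 0 ^ 2) + τ * (200 * e (s * p.1))) := by
  have hy2 := contDiff_y.pow 2
  have ht2 := contDiff_t.pow 2
  have h1 := expNegInvGlue.contDiff (n := ⊤).comp (hy2.sub ht2)
  have h2 := expNegInvGlue.contDiff (n := ⊤).comp (ht2.sub hy2)
  have h3 := (expNegInvGlue.contDiff (n := ⊤).comp hy2).pow 50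
  have h4 := expNegInvGlue.contDiff (n := ⊤).comp ((contDiff_const (c := s)).mul contDiff_t)
  exact ((hy2.add (contDiff_const.mul (contDiff_t.mul h1))).add (h3.mul h2)).add
    (contDiff_const.mul (contDiff_const.mul h4))

end Pool.Agent.H19.HopfCalc
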