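import Pool.Agent.H19.HopfBound

/-!
# Comparison of the curvatures in the second example
-/

namespace Pool.Agent.H19.HopfCalc

/-- The estimates on the side of `u`, `c = e (y²)`, `Y = y²`. -/
structure USide (c δ Y p a g r b : ℝ) : Prop where
  a_le : |a| ≤ δ
  p_le : |p - c| ≤ δ
  rg : 4 * (c - δ) ≤ r * g
  r_lo : 4 * Y ≤ r ^ 2
  r_hi : r ^ 2 ≤ 5
  b_le : |b - 2| ≤ δ

/-- The estimates on the side of `v`. -/
structure VSide (δ Y p a g r b : ℝ) : Prop where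
  a_le : |a| ≤ δ
  p_le : |p| ≤ δ
  g_le : |g| ≤ δ
  r_le : |r ^ 2 - 4 * Y| ≤ 5 * δ
  b_le : |b - 2| ≤ δ

lemma cmp_small {c δ : ℝ} (hc0 : 0 < c) (hc : c ≤ 1 / 2) (hδ : δ ≤ c ^ 2 / 1000) :
    δ ≤ c / 2000 ∧ c ^ 2 ≤ 1 / 4 := by
  constructor
  · nlinarith
  · nlinarith

lemma cmp_N_u {c δ Y p a g r b : ℝ} (hc0 : 0 < c) (hc : c ≤ 1 / 2) (hδ0 : 0 ≤ δ)
    (hδ : δ ≤ c ^ 2 / 1000) (hu : USide c δ Y p a g r b) :
    a * (1 + r ^ 2) + b * (1 + p ^ 2) - 2 * g * (p * r) ≤ 2 - 5 * c ^ 2 := by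
  obtain ⟨h1, h2⟩ := cmp_small hc0 hc hδ
  have ha := abs_le.1 hu.a_le
  have hp := abs_le.1 hu.p_le
  have hb := abs_le.1 hu.b_le
  have hr := hu.r_hi
  have hrg := hu.rg
  have hp0 : 0 ≤ p := by linarith
  have e1 : a * (1 + r ^ 2) ≤ 6 * δ := by
    have : a * (1 + r ^ 2) ≤ δ * (1 + r ^ 2) := mul_le_mul_of_nonneg_right ha.2 (by positivity)
    nlinarith
  have e2 : p ^ 2 ≤ (c + δ) ^ 2 := by
    apply pow_le_pow_left₀ hp0; linarith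
  have e3 : (c + δ) ^ 2 ≤ c ^ 2 + c ^ 2 / 900 := by nlinarith
  have e4 : b * (1 + p ^ 2) ≤ (2 + δ) * (1 + p ^ 2) :=
    mul_le_mul_of_nonneg_right (by linarith) (by positivity)
  have e5 : (2 + δ) * (1 + p ^ 2) ≤ (2 + δ) * (1 + (c ^ 2 + c ^ 2 / 900)) :=
    mul_le_mul_of_nonneg_left (by linarith) (by linarith)
  have e6 : (c - δ) * (4 * (c - δ)) ≤ p * (r * g) :=
    mul_le_mul (by linarith) hrg (by linarith) hp0
  have e7 : c ^ 2 - c ^ 2 / 900 ≤ (c - δ) ^ 2 := by nlinarith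
  have e8 : δ * c ^ 2 ≤ δ := by nlinarith
  nlinarith

lemma cmp_N_v {c δ Y p a g r b : ℝ} (hc0 : 0 < c) (hc : c ≤ 1 / 2) (hδ0 : 0 ≤ δ)
    (hδ : δ ≤ c ^ 2 / 1000) (hY1 : Y ≤ 1) (hv : VSide δ Y p a g r b) :
    2 - c ^ 2 ≤ a * (1 + r ^ 2) + b * (1 + p ^ 2) - 2 * g * (p * r) := by
  obtain ⟨h1, h2⟩ := cmp_small hc0 hc hδ
  have ha := abs_le.1 hv.a_le
  have hb := abs_le.1 hv.b_le
  have hr := abs_le.1 hv.r_le
  have hr2 : r ^ 2 ≤ 5 := by linarith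
  have hr3 : |r| ≤ 3 := by
    apply abs_le_of_sq_le_sq _ (by norm_num)
    linarith
  have e1 : - (6 * δ) ≤ a * (1 + r ^ 2) := by
    have : -δ * (1 + r ^ 2) ≤ a * (1 + r ^ 2) := mul_le_mul_of_nonneg_right ha.1 (by positivity)
    nlinarith
  have e2 : 2 - δ ≤ b * (1 + p ^ 2) := by
    have hp : 0 ≤ p ^ 2 := by positivity
    nlinarith
  have e3 : |g * (p * r)| ≤ δ * (δ * 3) := by
    rw [abs_mul, abs_mul]
    exact mul_le_mul hv.g_le (mul_le_mul hv.p_le hr3 (abs_nonneg _) hδ0) (by positivity) hδ0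
  have e4 := (abs_le.1 e3).2
  have e5 : δ * δ ≤ δ := by nlinarith
  nlinarith

theorem compare_one {c δ Y p a g r b p' a' g' r' b' : ℝ} (hc0 : 0 < c) (hc : c ≤ 1 / 2)
    (hδ0 : 0 ≤ δ) (hδ : δ ≤ c ^ 2 / 1000) (hY1 : Y ≤ 1)
    (hu : USide c δ Y p a g r b) (hv : VSide δ Y p' a' g' r' b') :
    (a * (1 + r ^ 2) + b * (1 + p ^ 2) - 2 * g * (p * r)) / (Real.sqrt (1 + p ^ 2 + r ^ 2)) ^ 3 <
      (a' * (1 + r' ^ 2) + b' * (1 + p' ^ 2) - 2 * g' * (p' * r')) /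
        (Real.sqrt (1 + p' ^ 2 + r' ^ 2)) ^ 3 := by
  obtain ⟨h1, h2⟩ := cmp_small hc0 hc hδ
  have hN := cmp_N_u hc0 hc hδ0 hδ hu
  have hN' := cmp_N_v hc0 hc hδ0 hδ hY1 hv
  have hp := abs_le.1 hu.p_le
  have e7 : c ^ 2 - c ^ 2 / 900 ≤ (c - δ) ^ 2 := by nlinarith
  have e8 : (c - δ) ^ 2 ≤ p ^ 2 := pow_le_pow_left₀ (by linarith) (by linarith) 2
  have e9 : p' ^ 2 ≤ δ ^ 2 := by
    rw [← sq_abs p']; exact pow_le_pow_left₀ (abs_nonneg _) hv.p_le 2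
  have e10 := (abs_le.1 hv.r_le).2
  have e11 : δ ^ 2 ≤ δ := by nlinarith
  have hc2 : 0 < c ^ 2 := by positivity
  have hW : 1 + p' ^ 2 + r' ^ 2 ≤ 1 + p ^ 2 + r ^ 2 := by
    have := hu.r_lo
    linarith
  have hs : Real.sqrt (1 + p' ^ 2 + r' ^ 2) ≤ Real.sqrt (1 + p ^ 2 + r ^ 2) :=
    Real.sqrt_le_sqrt hW
  have hs0 : 0 < Real.sqrt (1 + p' ^ 2 + r' ^ 2) := Real.sqrt_pos.2 (by positivity)
  have hs3 : Real.sqrt (1 + p' ^ 2 + r' ^ 2) ^ 3 ≤ Real.sqrt (1 + p ^ 2 + r ^ 2) ^ 3 :=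
    pow_le_pow_left₀ hs0.le hs 3
  have hpos : 0 < Real.sqrt (1 + p ^ 2 + r ^ 2) ^ 3 := by positivity
  calc _ < (a' * (1 + r' ^ 2) + b' * (1 + p' ^ 2) - 2 * g' * (p' * r')) /
        (Real.sqrt (1 + p ^ 2 + r ^ 2)) ^ 3 := by
        apply div_lt_div_of_pos_right _ hpos
        nlinarith
    _ ≤ _ := by
        apply div_le_div_of_nonneg_left _ (by positivity) hs3
        nlinarith

theorem compare_two {c δ Y p a g r b p' a' g' r' b' : ℝ} (hc0 : 0 < c) (hc : c ≤ 1 / 2)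
    (hδ0 : 0 ≤ δ) (hδ : δ ≤ c ^ 2 / 1000) 
    (hu : USide c δ Y p a g r b) (hv : VSide δ Y p' a' g' r' b') :
    (a * b - g ^ 2) / (1 + p ^ 2 + r ^ 2) ^ 2 < (a' * b' - g' ^ 2) / (1 + p' ^ 2 + r' ^ 2) ^ 2 := by
  obtain ⟨h1, h2⟩ := cmp_small hc0 hc hδ
  have ha := abs_le.1 hu.a_le
  have hb := abs_le.1 hu.b_le
  have hp := abs_le.1 hu.p_le
  have hb' := abs_le.1 hv.b_le
  have hc2 : 0 < c ^ 2 := by positivity
  have e7 : c ^ 2 - c ^ 2 / 900 ≤ (c - δ) ^ 2 := by nlinarith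
  -- `g² ≥ 3 c²`
  have hg : 3 * c ^ 2 ≤ g ^ 2 := by
    have h3 : (4 * (c - δ)) ^ 2 ≤ (r * g) ^ 2 := pow_le_pow_left₀ (by linarith) hu.rg 2
    have h4 : (r * g) ^ 2 ≤ 5 * g ^ 2 := by
      rw [mul_pow]
      exact mul_le_mul_of_nonneg_right hu.r_hi (by positivity)
    nlinarith
  have hab : a * b ≤ 3 * δ := by
    have h5 : |a * b| ≤ δ * 3 := by
      rw [abs_mul]
      refine mul_le_mul hu.a_le ?_ (abs_nonneg _) hδ0
      rw [abs_le]; constructor <;> linarith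
    have := (abs_le.1 h5).2
    linarith
  have hab' : - (3 * δ) ≤ a' * b' := by
    have h5 : |a' * b'| ≤ δ * 3 := by
      rw [abs_mul]
      refine mul_le_mul hv.a_le ?_ (abs_nonneg _) hδ0
      rw [abs_le]; constructor <;> linarith
    have := (abs_le.1 h5).1
    linarith
  have hg' : g' ^ 2 ≤ δ := by
    have h6 : g' ^ 2 ≤ δ ^ 2 := by
      rw [← sq_abs g']; exact pow_le_pow_left₀ (abs_nonneg _) hv.g_le 2
    nlinarith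
  have hW : 1 + p ^ 2 + r ^ 2 ≤ 7 := by
    have h7 : p ^ 2 ≤ 1 := by
      have h8 : |p| ≤ 1 := by rw [abs_le]; constructor <;> linarith
      rw [← sq_abs p]
      exact pow_le_one₀ (abs_nonneg _) h8
    have := hu.r_hi
    linarith
  have hW1 : 1 ≤ 1 + p ^ 2 + r ^ 2 := by nlinarith [sq_nonneg p, sq_nonneg r]
  have hW1' : 1 ≤ 1 + p' ^ 2 + r' ^ 2 := by nlinarith [sq_nonneg p', sq_nonneg r']
  have hWs : (1 + p ^ 2 + r ^ 2) ^ 2 ≤ 49 := by nlinarith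
  have hWs1' : 1 ≤ (1 + p' ^ 2 + r' ^ 2) ^ 2 := one_le_pow₀ hW1'
  -- left side `≤ - c² / 25`, right side `≥ - c² / 100`
  have hL : (a * b - g ^ 2) / (1 + p ^ 2 + r ^ 2) ^ 2 ≤ - (c ^ 2 / 25) := by
    rw [div_le_iff₀ (by positivity)]
    have : c ^ 2 * (1 + p ^ 2 + r ^ 2) ^ 2 ≤ c ^ 2 * 49 := mul_le_mul_of_nonneg_left hWs hc2.le
    nlinarith
  have hR : - (c ^ 2 / 100) ≤ (a' * b' - g' ^ 2) / (1 + p' ^ 2 + r' ^ 2) ^ 2 := by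
    rw [le_div_iff₀ (by positivity)]
    have : c ^ 2 * 1 ≤ c ^ 2 * (1 + p' ^ 2 + r' ^ 2) ^ 2 := mul_le_mul_of_nonneg_left hWs1' hc2.le
    nlinarith
  have : - (c ^ 2 / 25) < - (c ^ 2 / 100) := by linarith
  linarith

end Pool.Agent.H19.HopfCalc
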