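import Mathlib

/-!
# Elementary symmetric functions of the principal curvatures of a surface graph

For a `2 × 2` shape operator built from the gradient `(p, r)` and the Hessian
`(a, g; g, b)` the two symmetric functions of the eigenvalues are the mean curvature
and the Gauss curvature.
-/

namespace Pool.Agent.H19.HopfMatrix

open Matrix Polynomial

lemma sig_first (p r : ℝ) :
    (1 + Matrix.vecMulVec ![p, r] ![p, r] : Matrix (Fin 2) (Fin 2) ℝ) =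
      !![1 + p ^ 2, p * r; p * r, 1 + r ^ 2] := by
  ext i j
  fin_cases i <;> fin_cases j <;> simp [Matrix.vecMulVec] <;> ring

lemma sig_inv (p r : ℝ) :
    (!![1 + p ^ 2, p * r; p * r, 1 + r ^ 2] : Matrix (Fin 2) (Fin 2) ℝ)⁻¹ =
      (1 + p ^ 2 + r ^ 2)⁻¹ • !![1 + r ^ 2, - (p * r); - (p * r), 1 + p ^ 2] := by
  have hW : (1 + p ^ 2 + r ^ 2) ≠ 0 := by positivity
  apply Matrix.inv_eq_right_inv
  ext i j
  fin_cases i <;> fin_cases j <;>
    simp [Matrix.mul_apply, Fin.sum_univ_two] <;> field_simp <;> ring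

/-- The discriminant of the shape operator is nonnegative. -/
lemma sig_disc (p r a g b : ℝ) :
    0 ≤ (a * (1 + r ^ 2) + b * (1 + p ^ 2) - 2 * g * (p * r)) ^ 2
      - 4 * (1 + p ^ 2 + r ^ 2) * (a * b - g ^ 2) := by
  have h : (1 + r ^ 2) * (1 + p ^ 2) *
      ((a * (1 + r ^ 2) + b * (1 + p ^ 2) - 2 * g * (p * r)) ^ 2
      - 4 * (1 + p ^ 2 + r ^ 2) * (a * b - g ^ 2)) =
      (2 * (1 + r ^ 2) * (1 + p ^ 2) * g - p * r * ((1 + r ^ 2) * a + (1 + p ^ 2) * b)) ^ 2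
      + (1 + p ^ 2 + r ^ 2) * ((1 + r ^ 2) * a - (1 + p ^ 2) * b) ^ 2 := by ring
  have h1 : 0 < (1 + r ^ 2) * (1 + p ^ 2) := by positivity
  have h2 : 0 ≤ (1 + r ^ 2) * (1 + p ^ 2) *
      ((a * (1 + r ^ 2) + b * (1 + p ^ 2) - 2 * g * (p * r)) ^ 2
      - 4 * (1 + p ^ 2 + r ^ 2) * (a * b - g ^ 2)) := by
    rw [h]; positivity
  exact nonneg_of_mul_nonneg_right h2 h1

lemma sig_roots (M : Matrix (Fin 2) (Fin 2) ℝ) (h : 0 ≤ M.trace ^ 2 - 4 * M.det) :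
    ∃ x y : ℝ, M.charpoly.roots = {x, y} ∧ x + y = M.trace ∧ x * y = M.det := by
  set s := Real.sqrt (M.trace ^ 2 - 4 * M.det) with hs
  have hss : s ^ 2 = M.trace ^ 2 - 4 * M.det := Real.sq_sqrt h
  refine ⟨(M.trace + s) / 2, (M.trace - s) / 2, ?_, by ring, by nlinarith [hss]⟩
  have h1 : M.charpoly = (X - C ((M.trace + s) / 2)) * (X - C ((M.trace - s) / 2)) := by
    rw [Matrix.charpoly_fin_two]
    have e1 : M.trace = (M.trace + s) / 2 + (M.trace - s) / 2 := by ring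
    have e2 : M.det = (M.trace + s) / 2 * ((M.trace - s) / 2) := by nlinarith [hss]
    generalize hx : (M.trace + s) / 2 = x at *
    generalize hy : (M.trace - s) / 2 = y at *
    rw [e1, e2]
    simp only [map_add, map_mul]
    ring
  rw [h1, Polynomial.roots_mul, Polynomial.roots_X_sub_C, Polynomial.roots_X_sub_C]
  · rfl
  · exact mul_ne_zero (Polynomial.X_sub_C_ne_zero _) (Polynomial.X_sub_C_ne_zero _)

/-- The shape operator of a graph over the plane. -/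
noncomputable def shape (p r a g b : ℝ) : Matrix (Fin 2) (Fin 2) ℝ :=
  (1 + Matrix.vecMulVec ![p, r] ![p, r])⁻¹ *
    ((Real.sqrt (1 + ![p, r] ⬝ᵥ ![p, r]))⁻¹ • !![a, g; g, b])

lemma shape_eq (p r a g b : ℝ) :
    shape p r a g b = ((1 + p ^ 2 + r ^ 2)⁻¹ * (Real.sqrt (1 + p ^ 2 + r ^ 2))⁻¹) •
      !![(1 + r ^ 2) * a - p * r * g, (1 + r ^ 2) * g - p * r * b;
         (1 + p ^ 2) * g - p * r * a, (1 + p ^ 2) * b - p * r * g] := by
  have h1 : (1 : ℝ) + ![p, r] ⬝ᵥ ![p, r] = 1 + p ^ 2 + r ^ 2 := by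
    simp [dotProduct, Fin.sum_univ_two]; ring
  rw [shape, sig_first, sig_inv, h1]
  ext i j
  fin_cases i <;> fin_cases j <;>
    simp [Matrix.mul_apply, Fin.sum_univ_two] <;> ring

lemma shape_trace (p r a g b : ℝ) :
    (shape p r a g b).trace =
      (a * (1 + r ^ 2) + b * (1 + p ^ 2) - 2 * g * (p * r)) /
        (Real.sqrt (1 + p ^ 2 + r ^ 2)) ^ 3 := by
  have hW : 0 < 1 + p ^ 2 + r ^ 2 := by positivity
  have hs : 0 < Real.sqrt (1 + p ^ 2 + r ^ 2) := Real.sqrt_pos.2 hW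
  have hss : Real.sqrt (1 + p ^ 2 + r ^ 2) ^ 2 = 1 + p ^ 2 + r ^ 2 := Real.sq_sqrt hW.le
  rw [shape_eq, Matrix.trace_smul, Matrix.trace_fin_two_of, smul_eq_mul]
  nth_rewrite 1 [← hss]
  generalize Real.sqrt (1 + p ^ 2 + r ^ 2) = s at *
  field_simp
  ring

lemma shape_det (p r a g b : ℝ) :
    (shape p r a g b).det = (a * b - g ^ 2) / (1 + p ^ 2 + r ^ 2) ^ 2 := by
  have hW : 0 < 1 + p ^ 2 + r ^ 2 := by positivity
  have hs : 0 < Real.sqrt (1 + p ^ 2 + r ^ 2) := Real.sqrt_pos.2 hW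
  have hss : Real.sqrt (1 + p ^ 2 + r ^ 2) ^ 2 = 1 + p ^ 2 + r ^ 2 := Real.sq_sqrt hW.le
  have e : ((1 + p ^ 2 + r ^ 2)⁻¹ * (Real.sqrt (1 + p ^ 2 + r ^ 2))⁻¹) ^ 2 =
      ((1 + p ^ 2 + r ^ 2) ^ 3)⁻¹ := by
    rw [mul_pow, inv_pow, inv_pow, hss, ← mul_inv]
    ring_nf
  rw [shape_eq, Matrix.det_smul, Matrix.det_fin_two_of, Fintype.card_fin, e]
  field_simp
  ring

lemma shape_disc (p r a g b : ℝ) :
    0 ≤ (shape p r a g b).trace ^ 2 - 4 * (shape p r a g b).det := by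
  have hW : 0 < 1 + p ^ 2 + r ^ 2 := by positivity
  have hss : Real.sqrt (1 + p ^ 2 + r ^ 2) ^ 2 = 1 + p ^ 2 + r ^ 2 := Real.sq_sqrt hW.le
  rw [shape_trace, shape_det]
  have e : ((a * (1 + r ^ 2) + b * (1 + p ^ 2) - 2 * g * (p * r)) /
        (Real.sqrt (1 + p ^ 2 + r ^ 2)) ^ 3) ^ 2 =
      (a * (1 + r ^ 2) + b * (1 + p ^ 2) - 2 * g * (p * r)) ^ 2 / (1 + p ^ 2 + r ^ 2) ^ 3 := by
    rw [div_pow, ← pow_mul, mul_comm 3 2, pow_mul, hss]
  rw [e]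
  have e2 : (a * (1 + r ^ 2) + b * (1 + p ^ 2) - 2 * g * (p * r)) ^ 2 / (1 + p ^ 2 + r ^ 2) ^ 3
      - 4 * ((a * b - g ^ 2) / (1 + p ^ 2 + r ^ 2) ^ 2) =
      ((a * (1 + r ^ 2) + b * (1 + p ^ 2) - 2 * g * (p * r)) ^ 2
      - 4 * (1 + p ^ 2 + r ^ 2) * (a * b - g ^ 2)) / (1 + p ^ 2 + r ^ 2) ^ 3 := by
    field_simp
  rw [e2]
  exact div_nonneg (sig_disc p r a g b) (by positivity)

/-- `σ₁` of the principal curvatures is `N / W ^ 3`. -/
theorem shape_esymm_one (p r a g b : ℝ) :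
    (shape p r a g b).charpoly.roots.esymm 1 =
      (a * (1 + r ^ 2) + b * (1 + p ^ 2) - 2 * g * (p * r)) /
        (Real.sqrt (1 + p ^ 2 + r ^ 2)) ^ 3 := by
  obtain ⟨x, y, h1, h2, -⟩ := sig_roots _ (shape_disc p r a g b)
  rw [h1]
  exact (Multiset.esymm_pair_one x y).trans (h2.trans (shape_trace p r a g b))

/-- `σ₂` of the principal curvatures is the Gauss curvature. -/
theorem shape_esymm_two (p r a g b : ℝ) :
    (shape p r a g b).charpoly.roots.esymm 2 =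
      (a * b - g ^ 2) / (1 + p ^ 2 + r ^ 2) ^ 2 := by
  obtain ⟨x, y, h1, -, h2⟩ := sig_roots _ (shape_disc p r a g b)
  rw [h1]
  exact (Multiset.esymm_pair_two x y).trans (h2.trans (shape_det p r a g b))

end Pool.Agent.H19.HopfMatrix
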