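import Pool.Agent.H19.HopfSideV
import Pool.Agent.H19.HopfMatrix

/-!
# The remaining properties of the second example
-/

open scoped ContDiff Topology

namespace Pool.Agent.H19.HopfCalc

lemma e_le_self {x : ℝ} (h : 0 ≤ x) : e x ≤ x := by
  rcases h.eq_or_lt with h | h
  · rw [← h, e_zero le_rfl]
  · have h1 := inv_pow_mul_e h 1
    simp only [pow_one, Nat.factorial_one, Nat.cast_one] at h1
    rwa [inv_mul_le_iff₀ h, mul_one] at h1

/-- the term which may be negative in the `t`-derivative is dominated -/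
lemma e1_dom {D t : ℝ} (hD : 0 < D) (ht : 0 < t) (h : D ≤ 3 / 2 * t) : e1 D ≤ 32 * e (2 * t) := by
  have hx : 0 < D⁻¹ := inv_pos.2 hD
  have e0 : e1 D = D⁻¹ ^ 2 * Real.exp (-D⁻¹) := by
    rw [← e_pos_eq hD]; rfl
  rw [e0, e_pos_eq (by positivity : 0 < 2 * t)]
  have h1 := Real.pow_div_factorial_le_exp (D⁻¹ / 4) (by positivity) 2
  have h2 : D⁻¹ ^ 2 ≤ 32 * Real.exp (D⁻¹ / 4) := by
    norm_num [Nat.factorial] at h1 ⊢
    have h3 : (D⁻¹ / 4) ^ 2 / 2 = (D ^ 2)⁻¹ / 32 := by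
      field_simp; norm_num
    rw [h3] at h1
    linarith
  have h3 : (2 * t)⁻¹ ≤ 3 / 4 * D⁻¹ := by
    rw [inv_eq_one_div, div_le_iff₀ (by positivity)]
    have : 3 / 4 * D⁻¹ * (2 * t) = (3 / 2 * t) / D := by field_simp; norm_num
    rw [this, le_div_iff₀ hD]
    linarith
  calc D⁻¹ ^ 2 * Real.exp (-D⁻¹) ≤ 32 * Real.exp (D⁻¹ / 4) * Real.exp (-D⁻¹) :=
        mul_le_mul_of_nonneg_right h2 (Real.exp_pos _).le
    _ = 32 * Real.exp (-(3 / 4 * D⁻¹)) := by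
        rw [mul_assoc, ← Real.exp_add]; congr 2; ring
    _ ≤ 32 * Real.exp (-(2 * t)⁻¹) :=
        mul_le_mul_of_nonneg_left (Real.exp_le_exp.2 (by linarith)) (by norm_num)

theorem Ft_pos {t : ℝ} (v : EuclideanSpace ℝ (Fin 1)) (ht0 : 0 < t) (ht1 : t < 1) :
    0 < Ft 1 1 (t, v) := by
  simp only [Ft]
  set y := v 0
  have he : 0 < e (2 * t) := expNegInvGlue.pos_of_pos (by linarith)
  have p1 : 0 ≤ e (y ^ 2) ^ 50 * (2 * t * e1 (t ^ 2 - y ^ 2)) :=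
    mul_nonneg (pow_nonneg (e_nonneg _) _) (mul_nonneg (by linarith) (e1_nonneg _))
  -- `400 e1 (2 t) ≥ 100 e (2 t)`
  have p2 : 100 * e (2 * t) ≤ 400 * e1 (2 * t) := by
    have e0 : e1 (2 * t) = (1 / 4) * (t⁻¹ ^ 2 * e (2 * t)) := by
      simp only [e1, e]
      rw [mul_inv]
      ring
    have h1 : 1 ≤ t⁻¹ ^ 2 := one_le_pow₀ ((one_le_inv₀ ht0).2 ht1.le)
    have h2 : e (2 * t) ≤ t⁻¹ ^ 2 * e (2 * t) := le_mul_of_one_le_left he.le h1
    rw [e0]; linarith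
  have p3 : 2 * t ^ 2 * e1 (y ^ 2 - t ^ 2) - e (y ^ 2 - t ^ 2) ≤ 64 * e (2 * t) := by
    rcases le_or_gt (y ^ 2 - t ^ 2) 0 with hD | hD
    · rw [e_zero hD, e1_zero hD]
      linarith
    · set D := y ^ 2 - t ^ 2
      rcases le_or_gt D (3 / 2 * t) with h | h
      · have h1 := e1_dom hD ht0 h
        have h2 : t ^ 2 ≤ 1 := pow_le_one₀ ht0.le ht1.le
        have h3 : t ^ 2 * e1 D ≤ 1 * (32 * e (2 * t)) :=
          mul_le_mul h2 h1 (e1_nonneg _) (by norm_num)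
        have h4 := e_nonneg D
        linarith
      · have h1 : 2 * t ^ 2 * e1 D = (2 * t ^ 2 * D⁻¹ ^ 2) * e D := by
          simp only [e1, e]; ring
        have h2 : 2 * t ^ 2 * D⁻¹ ^ 2 ≤ 1 := by
          rw [inv_pow, ← div_eq_mul_inv, div_le_one (by positivity)]
          nlinarith
        have h3 := mul_le_mul_of_nonneg_right h2 (e_nonneg D)
        rw [h1]
        linarith
  linarith

theorem F_v_nonneg {t : ℝ} (v : EuclideanSpace ℝ (Fin 1)) (ht1 : t ≤ 1) :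
    0 ≤ F (-1) 0 (t, v) := by
  rw [F_v t (v 0) v rfl]
  set y := v 0
  have p2 : 0 ≤ e (y ^ 2) ^ 50 * e (t ^ 2 - y ^ 2) :=
    mul_nonneg (pow_nonneg (e_nonneg _) _) (e_nonneg _)
  have p1 : t * e (y ^ 2 - t ^ 2) ≤ y ^ 2 := by
    rcases le_or_gt (y ^ 2 - t ^ 2) 0 with hD | hD
    · rw [e_zero hD, mul_zero]; positivity
    · have h1 := e_le_self hD.le
      have h2 : t * e (y ^ 2 - t ^ 2) ≤ 1 * (y ^ 2 - t ^ 2) :=
        mul_le_mul ht1 h1 (e_nonneg _) (by norm_num)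
      have : 0 ≤ t ^ 2 := sq_nonneg t
      linarith
  linarith

theorem F_diff (t : ℝ) (v : EuclideanSpace ℝ (Fin 1)) :
    F 1 1 (t, v) - F (-1) 0 (t, v) = 2 * t * e ((v 0) ^ 2 - t ^ 2) + 200 * e (2 * t) := by
  rw [F_v t (v 0) v rfl, F_u t (v 0) v rfl]
  ring

theorem F_lt {t : ℝ} (v : EuclideanSpace ℝ (Fin 1)) (ht0 : 0 < t) :
    F (-1) 0 (t, v) < F 1 1 (t, v) := by
  have h := F_diff t v
  have he : 0 < e (2 * t) := expNegInvGlue.pos_of_pos (by linarith)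
  have h1 : 0 ≤ 2 * t * e ((v 0) ^ 2 - t ^ 2) := mul_nonneg (by linarith) (e_nonneg _)
  linarith

/-- the alternatives at a coincidence of values -/
theorem coincidence {t s : ℝ} (v : EuclideanSpace ℝ (Fin 1)) (ht0 : 0 ≤ t) (hs0 : 0 < s)
    (h : F 1 1 (t, v) = F (-1) 0 (s, v)) :
    (v 0 = 0 ∧ t = 0) ∨ (0 < (v 0) ^ 2 ∧ (v 0) ^ 2 ≤ s ^ 2 ∧
      t * e ((v 0) ^ 2 - t ^ 2) + e ((v 0) ^ 2) ^ 50 * e (t ^ 2 - (v 0) ^ 2) + 200 * e (2 * t) ≤
      e ((v 0) ^ 2) ^ 50) := by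
  rw [F_v s (v 0) v rfl, F_u t (v 0) v rfl] at h
  set y := v 0
  by_cases hy : y = 0
  · left
    refine ⟨hy, ?_⟩
    rw [hy] at h
    have z1 : e ((0 : ℝ) ^ 2 - t ^ 2) = 0 := e_zero (by nlinarith [sq_nonneg t])
    have z2 : e ((0 : ℝ) ^ 2 - s ^ 2) = 0 := e_zero (by nlinarith [sq_nonneg s])
    have z3 : e ((0 : ℝ) ^ 2) = 0 := e_zero (by norm_num)
    rw [z1, z2, z3] at h
    have h1 : e (2 * t) = 0 := by linarith
    have h2 : 2 * t ≤ 0 := expNegInvGlue.zero_iff_nonpos.1 h1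
    linarith
  · right
    have hY : 0 < y ^ 2 := by positivity
    have q1 : 0 ≤ t * e (y ^ 2 - t ^ 2) := mul_nonneg ht0 (e_nonneg _)
    have q2 : 0 ≤ e (y ^ 2) ^ 50 * e (t ^ 2 - y ^ 2) :=
      mul_nonneg (pow_nonneg (e_nonneg _) _) (e_nonneg _)
    have q3 : 0 ≤ 200 * e (2 * t) := mul_nonneg (by norm_num) (e_nonneg _)
    have hs : y ^ 2 ≤ s ^ 2 := by
      by_contra hcon
      push Not at hcon
      have z1 : e (s ^ 2 - y ^ 2) = 0 := e_zero (by linarith)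
      have z2 : 0 < e (y ^ 2 - s ^ 2) := expNegInvGlue.pos_of_pos (by linarith)
      have z3 : 0 < s * e (y ^ 2 - s ^ 2) := mul_pos hs0 z2
      rw [z1] at h
      linarith
    refine ⟨hY, hs, ?_⟩
    have z1 : e (y ^ 2 - s ^ 2) = 0 := e_zero (by linarith)
    have z2 : e (y ^ 2) ^ 50 * e (s ^ 2 - y ^ 2) ≤ e (y ^ 2) ^ 50 * 1 :=
      mul_le_mul_of_nonneg_left (e_le_one _) (pow_nonneg (e_nonneg _) _)
    rw [z1] at h
    linarith

end Pool.Agent.H19.HopfCalc
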