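import Pool.Agent.H19.HopfSides

/-!
# The side of `v` in the second example
-/

namespace Pool.Agent.H19.HopfCalc

theorem vside {s y : ℝ} (v : EuclideanSpace ℝ (Fin 1)) (hv : v 0 = y) (hs0 : 0 ≤ s) (hs1 : s ≤ 1)
    (hY0 : 0 < y ^ 2) (hY1 : y ^ 2 < 1) (hsy : y ^ 2 ≤ s ^ 2) :
    VSide (300000 * e (y ^ 2) ^ 48) (y ^ 2) (Ft (-1) 0 (s, v)) (Ftt (-1) 0 (s, v))
      (Fty (-1) (s, v)) (Fy (-1) (s, v)) (Fyy (-1) (s, v)) := by
  have hc0 : 0 < e (y ^ 2) := expNegInvGlue.pos_of_pos hY0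
  have hc := c_half hY1
  have hneg : y ^ 2 - s ^ 2 ≤ 0 := by linarith
  have z0 := e_zero hneg
  have z1 := e1_zero hneg
  have z2 := e2_zero hneg
  have hE0n := e_nonneg (s ^ 2 - y ^ 2)
  have hE0 := e_le_one (s ^ 2 - y ^ 2)
  have hE1n := e1_nonneg (s ^ 2 - y ^ 2)
  have hE1 := e1_le (s ^ 2 - y ^ 2)
  have hE2 := e2_abs (s ^ 2 - y ^ 2)
  have hA1n := e1_nonneg (y ^ 2)
  have hA1 := e1_le (y ^ 2)
  have hA2 := e2_abs (y ^ 2)
  have hyy : |y| ≤ 1 := by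
    rw [← sq_le_one_iff_abs_le_one]; exact hY1.le
  have hss : |s| ≤ 1 := by rw [abs_of_nonneg hs0]; exact hs1
  have hs2 : |s ^ 2| ≤ 1 := by
    rw [abs_of_nonneg (sq_nonneg s)]; exact pow_le_one₀ hs0 hs1
  have hY2 : |y ^ 2| ≤ 1 := by rw [abs_of_nonneg hY0.le]; exact hY1.le
  have hk0 : (0 : ℝ) ≤ e (y ^ 2) ^ 48 := by positivity
  have hk1 : e (y ^ 2) ^ 48 ≤ 1 / 300000 := by
    have h1 := c48 hc0 hc
    have h2 : e (y ^ 2) ^ 2 ≤ 1 := pow_le_one₀ hc0.le (by linarith)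
    linarith
  have h49 : |e (y ^ 2) ^ 49| ≤ e (y ^ 2) ^ 48 := by
    rw [abs_of_nonneg (by positivity)]
    exact pow_le_pow_of_le_one hc0.le (by linarith) (by norm_num)
  have h50 : |e (y ^ 2) ^ 50| ≤ e (y ^ 2) ^ 48 := by
    rw [abs_of_nonneg (by positivity)]
    exact pow_le_pow_of_le_one hc0.le (by linarith) (by norm_num)
  have h48 : |e (y ^ 2) ^ 48| ≤ e (y ^ 2) ^ 48 := (abs_of_nonneg hk0).le
  generalize hκ : e (y ^ 2) ^ 48 = κ at *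
  have bE0 : |e (s ^ 2 - y ^ 2)| ≤ 1 := by rw [abs_of_nonneg hE0n]; exact hE0
  have bE1 : |e1 (s ^ 2 - y ^ 2)| ≤ 2 := by rw [abs_of_nonneg hE1n]; exact hE1
  have bA1 : |e1 (y ^ 2)| ≤ 2 := by rw [abs_of_nonneg hA1n]; exact hA1
  have n2 : |(2 : ℝ)| ≤ 2 := by norm_num
  have n4 : |(4 : ℝ)| ≤ 4 := by norm_num
  have n100 : |(100 : ℝ)| ≤ 100 := by norm_num
  have hK' : |100 * y * e (y ^ 2) ^ 49 * e1 (y ^ 2)| ≤ 100 * 1 * κ * 2 :=
    abs_mul_le (abs_mul_le (abs_mul_le n100 hyy) h49) bA1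
  have p1 := abs_le.1 (abs_mul_le h50 (abs_mul_le (abs_mul_le n2 hss) bE1))
  have p2 := abs_le.1 (abs_mul_le hK' (abs_mul_le (abs_mul_le n2 hss) bE1))
  have p3 := abs_le.1 (abs_mul_le h50 (abs_mul_le (abs_mul_le (abs_mul_le n4 hss) hyy) hE2))
  have p4 := abs_le.1 (abs_mul_le h50 bE1)
  have p5 := abs_le.1 (abs_mul_le h50 (abs_mul_le hs2 hE2))
  have p5' := abs_le.1 (abs_mul_le h50 (abs_mul_le hY2 hE2))
  have p6 := abs_le.1 (abs_mul_le hK' bE0)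
  have p7 := abs_le.1 (abs_mul_le h50 (abs_mul_le (abs_mul_le n2 hyy) bE1))
  have p8 := abs_le.1 (abs_mul_le hK' (abs_mul_le (abs_mul_le n4 hyy) bE1))
  constructor
  · simp only [Ftt, hv, z1, z2]
    rw [abs_le]
    constructor <;> linarith [p4.1, p4.2, p5.1, p5.2]
  · simp only [Ft, hv, z0, z1]
    rw [abs_le]
    constructor <;> linarith [p1.1, p1.2]
  · simp only [Fty, hv, z1, z2]
    rw [abs_le]
    constructor <;> linarith [p2.1, p2.2, p3.1, p3.2]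
  · simp only [Fy, hv, z1]
    set w := 100 * y * e (y ^ 2) ^ 49 * e1 (y ^ 2) * e (s ^ 2 - y ^ 2) -
      e (y ^ 2) ^ 50 * (2 * y * e1 (s ^ 2 - y ^ 2)) with hw
    have hwle : |w| ≤ 204 * κ := by
      rw [abs_le]
      constructor <;> linarith [p6.1, p6.2, p7.1, p7.2]
    have e3 : (2 * y + -1 * (2 * s * y * 0) +
        100 * y * e (y ^ 2) ^ 49 * e1 (y ^ 2) * e (s ^ 2 - y ^ 2) -
        e (y ^ 2) ^ 50 * (2 * y * e1 (s ^ 2 - y ^ 2))) ^ 2 - 4 * y ^ 2 =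
        (4 * y + w) * w := by rw [hw]; ring
    rw [e3]
    have h4y : |4 * y + w| ≤ 5 := by
      have h5 := abs_le.1 (abs_mul_le n4 hyy)
      have h6 := abs_le.1 hwle
      rw [abs_le]
      constructor <;> linarith [h5.1, h5.2, h6.1, h6.2]
    have h7 := abs_mul_le h4y hwle
    linarith
  · simp only [Fyy, hv, z1, z2]
    have b1 : |100 * e (y ^ 2) ^ 49 * e1 (y ^ 2)| ≤ 100 * κ * 2 :=
      abs_mul_le (abs_mul_le n100 h49) bA1
    have b2 : |9800 * y ^ 2 * e (y ^ 2) ^ 48 * e1 (y ^ 2) ^ 2| ≤ 9800 * 1 * κ * 4 := by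
      refine abs_mul_le (abs_mul_le (abs_mul_le (by norm_num) hY2) ?_) ?_
      · rw [hκ]; exact (abs_of_nonneg hk0).le
      · rw [abs_of_nonneg (by positivity)]
        nlinarith
    have b3 : |200 * y ^ 2 * e (y ^ 2) ^ 49 * e2 (y ^ 2)| ≤ 200 * 1 * κ * 36 :=
      abs_mul_le (abs_mul_le (abs_mul_le (by norm_num) hY2) h49) hA2
    have b1' := abs_le.1 b1
    have b2' := abs_le.1 b2
    have b3' := abs_le.1 b3
    have b4 : |100 * e (y ^ 2) ^ 49 * e1 (y ^ 2) +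
      9800 * y ^ 2 * e (y ^ 2) ^ 48 * e1 (y ^ 2) ^ 2 +
      200 * y ^ 2 * e (y ^ 2) ^ 49 * e2 (y ^ 2)| ≤ 46600 * κ := by
      rw [abs_le]
      constructor <;> linarith [b1'.1, b1'.2, b2'.1, b2'.2, b3'.1, b3'.2]
    have b5 := abs_le.1 (abs_mul_le b4 bE0)
    rw [abs_le]
    constructor <;> linarith [b5.1, b5.2, p8.1, p8.2, p4.1, p4.2, p5'.1, p5'.2]

end Pool.Agent.H19.HopfCalc
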