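import Pool.Agent.H19.HopfCompare

/-!
# The two sides of the comparison in the second example
-/

namespace Pool.Agent.H19.HopfCalc

/-- the value of the function -/
lemma F_u (t y : ℝ) (v : EuclideanSpace ℝ (Fin 1)) (hv : v 0 = y) :
    F 1 1 (t, v) = y ^ 2 + t * e (y ^ 2 - t ^ 2) + e (y ^ 2) ^ 50 * e (t ^ 2 - y ^ 2) +
      200 * e (2 * t) := by
  simp only [F, hv]; ring

lemma F_v (s y : ℝ) (v : EuclideanSpace ℝ (Fin 1)) (hv : v 0 = y) :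
    F (-1) 0 (s, v) = y ^ 2 - s * e (y ^ 2 - s ^ 2) + e (y ^ 2) ^ 50 * e (s ^ 2 - y ^ 2) := by
  simp only [F, hv]; ring

/-- the small number `c ^ 48` -/
lemma c48 {c : ℝ} (hc0 : 0 < c) (hc : c ≤ 1 / 2) : 300000 * c ^ 48 ≤ c ^ 2 / 1000 := by
  have h : c ^ 46 ≤ (1 / 2) ^ 46 := pow_le_pow_left₀ hc0.le hc 46
  have e1 : c ^ 48 = c ^ 2 * c ^ 46 := by ring
  have h2 : 0 < c ^ 2 := by positivity
  rw [e1]
  have h3 : c ^ 2 * c ^ 46 ≤ c ^ 2 * (1 / 2) ^ 46 := mul_le_mul_of_nonneg_left h h2.le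
  have h4 : (300000 : ℝ) * (1 / 2) ^ 46 ≤ 1 / 1000 := by norm_num
  nlinarith

/-- On the side of `u` the height `t` is tiny. -/
lemma t_small {t Y : ℝ} (ht0 : 0 ≤ t) (ht1 : t ≤ 1) (hY0 : 0 < Y) (hY1 : Y < 1)
    (h : t * e (Y - t ^ 2) + e Y ^ 50 * e (t ^ 2 - Y) + 200 * e (2 * t) ≤ e Y ^ 50) :
    t ^ 2 ≤ Y / 2 ∧ t ≤ e Y ^ 48 := by
  have hc0 : 0 < e Y := expNegInvGlue.pos_of_pos hY0
  have hc := c_half hY1
  have p1 : 0 ≤ t * e (Y - t ^ 2) := mul_nonneg ht0 (e_nonneg _)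
  have p2 : 0 ≤ e Y ^ 50 * e (t ^ 2 - Y) := mul_nonneg (by positivity) (e_nonneg _)
  have p3 : 0 ≤ 200 * e (2 * t) := mul_nonneg (by norm_num) (e_nonneg _)
  have h1 : t ^ 2 ≤ Y / 2 := by
    by_contra hcon
    push Not at hcon
    have h2 : Y ≤ 2 * t := by nlinarith
    have h3 : e Y ≤ e (2 * t) := e_mono h2
    have h4 : e Y ^ 50 ≤ e Y := by
      calc e Y ^ 50 ≤ e Y ^ 1 := pow_le_pow_of_le_one hc0.le (by linarith) (by norm_num)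
        _ = e Y := pow_one _
    linarith
  refine ⟨h1, ?_⟩
  have h5 : e Y ^ 2 ≤ e (Y - t ^ 2) := by
    rw [← e_half_eq hY0]
    exact e_mono (by linarith)
  have h6 : t * e Y ^ 2 ≤ e Y ^ 50 := by
    have : t * e Y ^ 2 ≤ t * e (Y - t ^ 2) := mul_le_mul_of_nonneg_left h5 ht0
    linarith
  have h7 : e Y ^ 50 = e Y ^ 48 * e Y ^ 2 := by ring
  rw [h7] at h6
  exact le_of_mul_le_mul_right h6 (by positivity)

lemma abs_mul_le {a b A B : ℝ} (ha : |a| ≤ A) (hb : |b| ≤ B) : |a * b| ≤ A * B := by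
  rw [abs_mul]
  exact mul_le_mul ha hb (abs_nonneg _) ((abs_nonneg _).trans ha)

theorem uside {t y : ℝ} (v : EuclideanSpace ℝ (Fin 1)) (hv : v 0 = y) (ht0 : 0 ≤ t) (ht1 : t ≤ 1)
    (hY0 : 0 < y ^ 2) (hY1 : y ^ 2 < 1)
    (h : t * e (y ^ 2 - t ^ 2) + e (y ^ 2) ^ 50 * e (t ^ 2 - y ^ 2) + 200 * e (2 * t) ≤
      e (y ^ 2) ^ 50) :
    USide (e (y ^ 2)) (300000 * e (y ^ 2) ^ 48) (y ^ 2) (Ft 1 1 (t, v)) (Ftt 1 1 (t, v))
      (Fty 1 (t, v)) (Fy 1 (t, v)) (Fyy 1 (t, v)) := by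
  obtain ⟨h1, h2⟩ := t_small ht0 ht1 hY0 hY1 h
  have hc0 : 0 < e (y ^ 2) := expNegInvGlue.pos_of_pos hY0
  have hc := c_half hY1
  have hneg : t ^ 2 - y ^ 2 ≤ 0 := by linarith
  have z0 := e_zero hneg
  have z1 := e1_zero hneg
  have z2 := e2_zero hneg
  have hD0 := e_lower' hY0 h1
  have ht2n : 0 ≤ t ^ 2 := sq_nonneg t
  have hD0' : e (y ^ 2 - t ^ 2) ≤ e (y ^ 2) := e_mono (by linarith)
  have hD1 := e1_lower hY0 h1
  have hD1n := e1_nonneg (y ^ 2 - t ^ 2)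
  have hD1' := e1_le (y ^ 2 - t ^ 2)
  have hD2 := e2_abs (y ^ 2 - t ^ 2)
  have hs1 := e1_small (x := 2 * t) (by linarith)
  have hs1n := e1_nonneg (2 * t)
  have hs2 := abs_le.1 (e2_small (x := 2 * t) (by linarith))
  have ht2 : t ^ 2 ≤ t := by
    calc t ^ 2 ≤ t ^ 1 := pow_le_pow_of_le_one ht0 ht1 (by norm_num)
      _ = t := pow_one t
  have ht3 : t ^ 3 ≤ t := by
    calc t ^ 3 ≤ t ^ 1 := pow_le_pow_of_le_one ht0 ht1 (by norm_num)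
      _ = t := pow_one t
  have ht3n : 0 ≤ t ^ 3 := by positivity
  have hc48 := c48 hc0 hc
  have hcp : (0 : ℝ) ≤ e (y ^ 2) ^ 48 := by positivity
  have hcc : e (y ^ 2) ^ 2 ≤ e (y ^ 2) := by
    calc e (y ^ 2) ^ 2 ≤ e (y ^ 2) ^ 1 := pow_le_pow_of_le_one hc0.le (by linarith) (by norm_num)
      _ = e (y ^ 2) := pow_one _
  -- smallness of `t`
  have ht48 : t ≤ 1 / 1000000 := by linarith
  set a := e1 (y ^ 2 - t ^ 2) with ha
  set b := e2 (y ^ 2 - t ^ 2) with hb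
  set c := e (y ^ 2) with hcdef
  have g1 := abs_le.1 (abs_mul_le (abs_of_nonneg ht0).le ((abs_of_nonneg hD1n).le.trans hD1'))
  have g2 := abs_le.1 (abs_mul_le ((abs_of_nonneg ht2n).le.trans ht2)
    ((abs_of_nonneg hD1n).le.trans hD1'))
  have g3 := abs_le.1 (abs_mul_le ((abs_of_nonneg ht2n).le.trans ht2) hD2)
  have g4 := abs_le.1 (abs_mul_le ((abs_of_nonneg ht3n).le.trans ht3) hD2)
  have g5 := abs_le.1 (abs_mul_le ((abs_of_nonneg hY0.le).le.trans hY1.le) hD2)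
  have hta : 0 ≤ t * a := mul_nonneg ht0 hD1n
  constructor
  · -- `Ftt`
    simp only [Ftt, hv, z1, z2]
    rw [abs_le, ← ha, ← hb]
    constructor <;> linarith [g1.1, g1.2, g4.1, g4.2, hs2.1, hs2.2]
  · -- `Ft`
    simp only [Ft, hv, z1]
    rw [abs_le, ← ha]
    constructor <;> linarith [g2.1, g2.2]
  · -- the product
    simp only [Fty, Fy, hv, z0, z1, z2]
    rw [← ha, ← hb, ← hcdef]
    have e3 : (2 * y + 1 * (2 * t * y * a) + 100 * y * c ^ 49 * e1 (y ^ 2) * 0 -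
        c ^ 50 * (2 * y * 0)) * (1 * (2 * y * a - 4 * t ^ 2 * y * b) +
        100 * y * c ^ 49 * e1 (y ^ 2) * (2 * t * 0) - c ^ 50 * (4 * t * y * 0)) =
        4 * (y ^ 2 * ((1 + t * a) * (a - 2 * (t ^ 2 * b)))) := by ring
    rw [e3]
    apply mul_le_mul_of_nonneg_left _ (by norm_num : (0 : ℝ) ≤ 4)
    -- `q = a - 2 t² b ≥ Y⁻² c - 120 t`
    have hq : (y ^ 2)⁻¹ ^ 2 * c - 120 * t ≤ a - 2 * (t ^ 2 * b) := by
      linarith [g3.1, g3.2]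
    -- `Y * Y⁻² c ≥ c`
    have hYi : 1 ≤ (y ^ 2)⁻¹ := (one_le_inv₀ hY0).2 hY1.le
    have hYY : y ^ 2 * ((y ^ 2)⁻¹ ^ 2 * c) = (y ^ 2)⁻¹ * c := by
      field_simp
    have hYc : c ≤ (y ^ 2)⁻¹ * c := le_mul_of_one_le_left hc0.le hYi
    have hYc2 : c ≤ (y ^ 2)⁻¹ ^ 2 * c :=
      le_mul_of_one_le_left hc0.le (one_le_pow₀ hYi)
    have hq0 : 0 ≤ a - 2 * (t ^ 2 * b) := by linarith
    have h5 : a - 2 * (t ^ 2 * b) ≤ (1 + t * a) * (a - 2 * (t ^ 2 * b)) :=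
      le_mul_of_one_le_left hq0 (by linarith)
    have h6 : y ^ 2 * ((y ^ 2)⁻¹ ^ 2 * c - 120 * t) ≤
        y ^ 2 * ((1 + t * a) * (a - 2 * (t ^ 2 * b))) :=
      mul_le_mul_of_nonneg_left (hq.trans h5) hY0.le
    have h7 : y ^ 2 * ((y ^ 2)⁻¹ ^ 2 * c - 120 * t) =
        (y ^ 2)⁻¹ * c - 120 * (y ^ 2 * t) := by
      rw [mul_sub, hYY]; ring
    have h8 : y ^ 2 * t ≤ t := mul_le_of_le_one_left ht0 hY1.le
    refine le_trans ?_ h6
    rw [h7]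
    linarith
  · -- `Fy² ≥ 4 Y`
    simp only [Fy, hv, z0, z1]
    rw [← ha, ← hcdef]
    have e3 : (2 * y + 1 * (2 * t * y * a) +
        100 * y * c ^ 49 * e1 (y ^ 2) * 0 - c ^ 50 * (2 * y * 0)) ^ 2 =
        4 * y ^ 2 * (1 + t * a) ^ 2 := by ring
    rw [e3]
    exact le_mul_of_one_le_right (by positivity) (one_le_pow₀ (by linarith))
  · simp only [Fy, hv, z0, z1]
    rw [← ha, ← hcdef]
    have e3 : (2 * y + 1 * (2 * t * y * a) +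
        100 * y * c ^ 49 * e1 (y ^ 2) * 0 - c ^ 50 * (2 * y * 0)) ^ 2 =
        4 * (y ^ 2 * (1 + t * a) ^ 2) := by ring
    rw [e3]
    have h8 : (1 + t * a) ^ 2 ≤ (1 + 1 / 100) ^ 2 :=
      pow_le_pow_left₀ (by linarith) (by linarith [g1.2]) 2
    have h9 : y ^ 2 * (1 + t * a) ^ 2 ≤ 1 * (1 + 1 / 100) ^ 2 :=
      mul_le_mul hY1.le h8 (by positivity) (by norm_num)
    norm_num at h9 ⊢
    linarith
  · -- `Fyy`
    simp only [Fyy, hv, z0, z1, z2]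
    rw [← ha, ← hb]
    have e3' : |2 * a + 4 * y ^ 2 * b| ≤ 148 := by
      rw [abs_le]
      constructor <;> linarith [g5.1, g5.2]
    have f4 := abs_le.1 (abs_mul_le (abs_of_nonneg ht0).le e3')
    rw [abs_le]
    constructor <;> linarith [f4.1, f4.2]

end Pool.Agent.H19.HopfCalc
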